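import Mathlib

/-!
# The final computation
-/

set_option autoImplicit false

namespace Pool.Agent.L0h32.LT

theorem final_num {n D K r R b e E k' : ℕ} (hD1 : 1 ≤ D) (hn0 : 0 < n)
    (hn : 384 * D * (8 * k' * D + 4 * D + 1) ≤ n) (hK2 : n < 48 * D * (K + 1)) (hr3 : r ≤ R + 1)
    (hb1 : 2048 * D ≤ 2 ^ b) (hb2 : 6144 * b ≤ E) (he2 : E * D * e ≤ 16 * n)
    (hcore : (K : ℝ) ≤ (8 * k' * D : ℕ) + (4 * D : ℕ) + (r + 1) * (1 / (384 * D * (R + 2)) * n) +
      b * e + 4 * n / 2 ^ b) : False := by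
  have hDr : (0 : ℝ) < D := by exact_mod_cast hD1
  have hnr : (0 : ℝ) < n := by exact_mod_cast hn0
  have hu1 : (8 : ℝ) * k' * D + 4 * D + 1 ≤ n / (384 * D) := by
    rw [le_div_iff₀ (by positivity)]
    have : ((384 * D * (8 * k' * D + 4 * D + 1) : ℕ) : ℝ) ≤ n := by exact_mod_cast hn
    push_cast at this
    linarith
  have hu2 : 8 * ((n : ℝ) / (384 * D)) < K + 1 := by
    have h1 : (n : ℝ) < 48 * D * (K + 1) := by exact_mod_cast hK2
    rw [← mul_div_assoc, div_lt_iff₀ (by positivity)]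
    linarith
  have hu3 : ((r : ℝ) + 1) * (1 / (384 * D * (R + 2)) * n) ≤ n / (384 * D) := by
    have h1 : (r : ℝ) + 1 ≤ R + 2 := by
      have : ((r : ℕ) : ℝ) ≤ ((R + 1 : ℕ) : ℝ) := by exact_mod_cast hr3
      push_cast at this
      linarith
    calc ((r : ℝ) + 1) * (1 / (384 * D * (R + 2)) * n) ≤
        ((R : ℝ) + 2) * (1 / (384 * D * (R + 2)) * n) :=
          mul_le_mul_of_nonneg_right h1 (by positivity)
      _ = n / (384 * D) := by
        field_simp
  have hu4 : (b : ℝ) * e ≤ n / (384 * D) := by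
    have h1 : ((6144 * b * (D * e) : ℕ) : ℝ) ≤ ((16 * n : ℕ) : ℝ) := by
      have : 6144 * b * (D * e) ≤ 16 * n := by
        calc 6144 * b * (D * e) ≤ E * (D * e) := Nat.mul_le_mul_right _ hb2
          _ = E * D * e := by ring
          _ ≤ 16 * n := he2
      exact_mod_cast this
    push_cast at h1
    rw [le_div_iff₀ (by positivity)]
    linarith
  have hu5 : 4 * (n : ℝ) / 2 ^ b ≤ n / (384 * D) := by
    have h1 : (2048 : ℝ) * D ≤ 2 ^ b := by exact_mod_cast hb1
    calc 4 * (n : ℝ) / 2 ^ b ≤ 4 * n / (2048 * D) := by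
          apply div_le_div_of_nonneg_left (by positivity) (by positivity) h1
      _ ≤ n / (384 * D) := by
        rw [div_le_div_iff₀ (by positivity) (by positivity)]
        have : (0 : ℝ) < n * D := by positivity
        linarith
  push_cast at hcore
  have : (0 : ℝ) ≤ 8 * k' * D + 4 * D := by positivity
  linarith

theorem rnk_num {n D K m : ℕ} (hn0 : 0 < n) (hn3 : 384 * D * (4 * D + 1) ≤ n)
    (hm2 : n < 2 * D * (m + 1)) (hK1 : 48 * D * K ≤ n) (hD1 : 1 ≤ D) :
    n + 6 * K * (4 * D + 1) < (4 * D + 1) * m := by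
  have h1 : 2 * D * (n + 6 * K * (4 * D + 1)) < 2 * D * ((4 * D + 1) * m) := by
    have h2 : (4 * D + 1) * n < (4 * D + 1) * (2 * D * (m + 1)) :=
      Nat.mul_lt_mul_of_pos_left hm2 (by omega)
    have h3 : (4 * D + 1) * (48 * D * K) ≤ (4 * D + 1) * n := Nat.mul_le_mul_left _ hK1
    have h4 : 1 * n ≤ D * n := Nat.mul_le_mul_right _ hD1
    have e1 : 2 * D * (n + 6 * K * (4 * D + 1)) * 4 =
      8 * (D * n) + (4 * D + 1) * (48 * D * K) := by ring
    have e2 : (4 * D + 1) * n = 4 * (D * n) + n := by ring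
    have e3 : (4 * D + 1) * (2 * D * (m + 1)) = 2 * D * ((4 * D + 1) * m) + 2 * D * (4 * D + 1) := by
      ring
    have e4 : 384 * D * (4 * D + 1) = 192 * (2 * D * (4 * D + 1)) := by ring
    omega
  exact Nat.lt_of_mul_lt_mul_left h1

end Pool.Agent.L0h32.LT
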