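import Pool.Agent.L0h32.LT.Num
import Pool.Agent.L0h32.LT.Fin

/-!
# Assembly
-/

set_option autoImplicit false

namespace Pool.Agent.L0h32.LT

open Finset Polynomial

/-- The core: a machine that decides whether the value of the quadratic polynomial is `w`. -/
theorem core (hsel : S_SEL) (hrec : S_REC) {k E n ℓ r K m s D e b : ℕ} {γ : ℝ} (hk : 1 ≤ k)
    (hE : 1 ≤ E) (hD : D = gam (2 * k) E (2 * k)) (hn : 64 * D * (2 * k * ℓ + 1) ≤ n)
    (hrl : r * ℓ ≤ k * n) (hm : 2 * D * m ≤ n) (he : 16 * n < E * D * (e + 1))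
    (M : Fin n → (Fin 6 × Fin K → ZMod 2))
    (hrk : ∀ A : Finset (Fin n), m ≤ A.card →
      6 * K ≤ Module.finrank (ZMod 2) (Submodule.span (ZMod 2) (M '' A)) + s)
    (w : (ZMod 2)[X])
    (hw : 2 ^ n ≤ 2 ^ (2 * K) * (univ.filter fun x : Inp n => quad M x = w).card)
    (hcnt : (Idx n e).card * 2 ^ (b * n) ≤ 2 ^ (b * e) * (2 ^ b + 2) ^ n)
    {V : Type} [Finite V] (P : Mach n V) (v₀ : V)
    (hcov : ∀ x : Inp n, ∀ β : ℕ → V, ∀ i, (tt P ℓ β r x i).Nonempty)
    (hacc : ∀ x z, bd P ℓ v₀ z r = bd P ℓ v₀ x r → quad M x = w → quad M z = w)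
    (hV : (Nat.card V : ℝ) ≤ 2 ^ (γ * n)) :
    (K : ℝ) ≤ (8 * k * D : ℕ) + s + (r + 1) * (γ * n) + b * e + 4 * n / 2 ^ b := by
  classical
  have hW : (univ.filter fun x : Inp n => quad M x = w).Nonempty := by
    rw [← card_pos]
    by_contra h0
    have h0' : (univ.filter fun x : Inp n => quad M x = w).card = 0 := by omega
    have : 0 < 2 ^ n := by positivity
    rw [h0', mul_zero] at hw
    omega
  obtain ⟨j, Q, Θ, F, h, β, S, hSW, hSne, hbd, hgood, hcard⟩ := exists_class hsel hk hE P v₀
    (by rw [← hD]; exact hn) (fun x i => hcov x _ i) hrl _ hW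
  rw [← hD] at hgood hcard
  have hcard' : (univ.filter fun x : Inp n => quad M x = w).card ≤
      4 * k * D * Nat.card V ^ (r + 1) * S.card := by
    convert hcard
  have hlb : ∀ x ∈ S, ∀ a : ℕ, Lb P ℓ β (fun s => (F s : ℕ)) (univ.filter fun i => (h i : ℕ) = 0)
      a x = univ.filter fun i => (h i : ℕ) = 0 ∧ ∀ s ∈ tt P ℓ β r x i, (F s : ℕ) = a := by
    intro x _ a
    unfold Lb
    rw [filter_filter]
  have hm' : ∀ c, n ≤ 2 * D * c → m ≤ c := by
    intro c hc
    have hD0 : 0 < 2 * D := by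
      have := gam_pos (show 1 ≤ 2 * k by omega) hE (2 * k)
      omega
    exact Nat.le_of_mul_le_mul_left (hm.trans hc) hD0
  have hmain := main_count hrec (m := m) (K := K) (s := s) (e := e) (j := j) P ℓ v₀ β
    (fun s => (F s : ℕ)) (univ.filter fun i => (h i : ℕ) = 0) M w hrk S hbd
    (fun x _ i => hcov x β i) (by
      intro x hx
      obtain ⟨-, -, h3⟩ := hgood x hx
      have h4 : Ex P ℓ β (fun s => (F s : ℕ)) (univ.filter fun i => (h i : ℕ) = 0) j x =
          univ.filter fun i => (h i : ℕ) = 0 ∧ (tt P ℓ β r x i).card ≠ j ∧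
            ∀ s ∈ tt P ℓ β r x i, (F s : ℕ) = 0 ∨ (F s : ℕ) = 1 := by
        unfold Ex
        rw [filter_filter]
      rw [h4]
      have h5 := h3.trans_lt he
      have h6 := Nat.lt_of_mul_lt_mul_left h5
      omega) (by
      intro x hx
      rw [hlb x hx 0]
      exact hm' _ (hgood x hx).1) (by
      intro x hx
      rw [hlb x hx 1]
      exact hm' _ (hgood x hx).2.1) (by
      intro z hz
      obtain ⟨x, hx⟩ := hSne
      refine hacc x z ?_ (mem_filter.1 (hSW hx)).2
      rw [hz, hbd x hx r le_rfl])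
  have h1 : 2 ^ K ≤ (8 * k * D) * Nat.card V ^ (r + 1) * (Idx n e).card * 2 ^ s := by
    have h2 : 2 ^ n * 2 ^ (2 * K) * 2 ^ K ≤ 2 ^ n * 2 ^ (2 * K) *
        ((8 * k * D) * Nat.card V ^ (r + 1) * (Idx n e).card * 2 ^ s) := by
      calc 2 ^ n * 2 ^ (2 * K) * 2 ^ K = 2 ^ n * 2 ^ (3 * K) := by ring
        _ ≤ (2 ^ (2 * K) * (4 * k * D * Nat.card V ^ (r + 1) * S.card)) * 2 ^ (3 * K) :=
          Nat.mul_le_mul_right _ (hw.trans (Nat.mul_le_mul_left _ hcard'))
        _ = 2 ^ (2 * K) * (4 * k * D * Nat.card V ^ (r + 1)) * (S.card * 2 ^ (3 * K)) := by ring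
        _ ≤ 2 ^ (2 * K) * (4 * k * D * Nat.card V ^ (r + 1)) *
            (2 * (Idx n e).card * 2 ^ (n + s)) := Nat.mul_le_mul_left _ hmain
        _ = _ := by ring
    exact Nat.le_of_mul_le_mul_left h2 (by positivity)
  exact num h1 hcnt hV

/-- The function `f` has a one-pass randomized program with `ρ` coins, with at most `B` memory states
and with one-sided error. -/
def OneP (n ρ B : ℕ) (f : Inp n → Bool) : Prop :=
  ∃ (V : Type) (_ : Finite V) (start : (Fin ρ → Bool) → V) (next : Fin n → V → Bool → V)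
    (acc : V → Prop), Nat.card V ≤ B ∧
      ∀ x : Inp n, (f x = true → 2 ^ ρ ≤ 2 * Nat.card {ω : Fin ρ → Bool // acc ((List.finRange n).foldl
          (fun v i => next i v (x i)) (start ω))}) ∧
        (f x = false → ∀ ω, ¬ acc ((List.finRange n).foldl (fun v i => next i v (x i)) (start ω)))

/-- Every branching program that computes `f` in time `T` has more than `L` nodes. -/
def Hard (n T : ℕ) (L : ℝ) (f : Inp n → Bool) : Prop :=
  ∀ (V : Type) (_ : Finite V) (start : V) (var : V → Fin n) (next : V → Bool → V)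
    (out : V → Option Bool),
    (∀ x, out ((fun v => if (out v).isSome then v else next v (x (var v)))^[T] start) =
      some (f x)) → L < Nat.card V

/-- **Assembly.** -/
theorem assembly (hsel : S_SEL) (hrnk : S_RNK) (hrec : S_REC) (hone : S_ONE) (hpar : S_PAR)
    (hcnt : S_CNT) (k : ℕ) : ∃ γ : ℝ, 0 < γ ∧ ∃ n₀ : ℕ, ∀ n ≥ n₀,
      ∃ f : Inp n → Bool, OneP n (Nat.log 2 n) (n ^ 7) f ∧ Hard n (k * n) (2 ^ (γ * n)) f := by
  classical
  set k' := k + 2 with hk'
  obtain ⟨E, hE1, hE⟩ := hpar (2 * k') 73728 (by omega)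
  set D := gam (2 * k') E (2 * k') with hD
  have hD1 : 1 ≤ D := gam_pos (by omega) hE1 _
  set R := (k + 1) * (256 * D * (2 * k')) with hR
  refine ⟨1 / (384 * D * (R + 2)), by positivity, 384 * D * (8 * k' * D + 4 * D + 1), fun n hn => ?_⟩
  -- the parameters
  have hn1 : 384 * D ≤ n := le_trans (Nat.le_mul_of_pos_right _ (by omega)) hn
  have hn2 : 128 * D * (2 * k') ≤ n := by nlinarith
  have hn3 : 384 * D * (4 * D + 1) ≤ n := by nlinarith
  have hn0 : 0 < n := by omega
  set ℓ := n / (128 * D * (2 * k')) with hℓ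
  have hℓ1 : 1 ≤ ℓ := by
    rw [hℓ, Nat.le_div_iff_mul_le (by positivity)]
    omega
  have hℓ2 : 128 * D * (2 * k') * ℓ ≤ n := Nat.mul_div_le _ _
  have hℓ3 : n < 128 * D * (2 * k') * (ℓ + 1) := Nat.lt_mul_div_succ _ (by positivity)
  set r := (k + 1) * n / ℓ + 1 with hr
  have hr1 : (k + 1) * n ≤ r * ℓ := by
    have := Nat.lt_mul_div_succ ((k + 1) * n) (show 0 < ℓ by omega)
    rw [hr]
    nlinarith
  have hr2 : r * ℓ ≤ k' * n := by
    have h1 := Nat.div_mul_le_self ((k + 1) * n) ℓ
    have h2 : ℓ ≤ n := Nat.div_le_self _ _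
    rw [hr, hk']
    nlinarith
  have hr3 : r ≤ R + 1 := by
    rw [hr, hR]
    apply Nat.succ_le_succ
    have h1 : (k + 1) * n ≤ (k + 1) * (256 * D * (2 * k')) * ℓ := by
      rw [mul_assoc]
      apply Nat.mul_le_mul_left
      nlinarith
    exact (Nat.div_le_div_right h1).trans (by rw [Nat.mul_div_cancel _ (by omega)])
  set m := n / (2 * D) with hm
  have hm1 : 2 * D * m ≤ n := Nat.mul_div_le _ _
  have hm2 : n < 2 * D * (m + 1) := Nat.lt_mul_div_succ _ (by positivity)
  set K := n / (48 * D) with hK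
  have hK1 : 48 * D * K ≤ n := Nat.mul_div_le _ _
  have hK2 : n < 48 * D * (K + 1) := Nat.lt_mul_div_succ _ (by positivity)
  have hK3 : 1 ≤ K := by
    rw [hK, Nat.le_div_iff_mul_le (by positivity)]
    omega
  set s := 4 * D with hs
  set e := 16 * n / (E * D) with he
  have he1 : 16 * n < E * D * (e + 1) := Nat.lt_mul_div_succ _ (by positivity)
  have he2 : E * D * e ≤ 16 * n := Nat.mul_div_le _ _
  set b := Nat.log 2 D + 12 with hb
  have hb1 : 2048 * D ≤ 2 ^ b := by
    have := Nat.lt_pow_succ_log_self (show 1 < 2 by norm_num) D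
    rw [hb, pow_add]
    rw [pow_succ] at this
    omega
  have hb2 : 6144 * b ≤ E := by
    refine le_trans ?_ hE
    rw [hb]
    omega
  -- the matrix
  obtain ⟨M, hM⟩ := hrnk n m s (Fin 6 × Fin K) inferInstance (by
    rw [Fintype.card_prod, Fintype.card_fin, Fintype.card_fin, hs]
    exact rnk_num hn0 hn3 hm2 hK1 hD1)
  rw [Fintype.card_prod, Fintype.card_fin, Fintype.card_fin] at hM
  obtain ⟨w, hw⟩ := exists_popular M
  refine ⟨fun x => decide (quad M x ≠ w), ?_, ?_⟩
  · -- the randomized program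
    have hwx : ∃ x, quad M x = w := by
      by_contra hcon
      push Not at hcon
      have : (univ.filter fun x : Inp n => quad M x = w) = ∅ :=
        filter_eq_empty_iff.2 fun x _ => hcon x
      rw [this, card_empty, mul_zero] at hw
      have : 0 < 2 ^ n := by positivity
      omega
    obtain ⟨ρ, hρ, hρ1, hρK, hρn⟩ : ∃ ρ, ρ = Nat.log 2 n ∧ 1 ≤ ρ ∧ 4 * K ≤ 2 ^ ρ ∧ 2 ^ ρ ≤ n := by
      refine ⟨Nat.log 2 n, rfl, Nat.log_pos (by norm_num) (by omega), ?_,
        Nat.pow_log_le_self 2 hn0.ne'⟩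
      have h1 := Nat.lt_pow_succ_log_self (show 1 < 2 by norm_num) n
      rw [pow_succ] at h1
      have h4 : 48 * 1 * K ≤ 48 * D * K := Nat.mul_le_mul_right _ (Nat.mul_le_mul_left _ hD1)
      omega
    rw [← hρ]
    obtain ⟨V, hV, P, hcard, hP⟩ := hone n K ρ M w hρ1 hρK hwx
    have hfold : ∀ (ω : Fin ρ → Bool) (x : Inp n), ((List.finRange n).foldl (fun (v : (Fin ρ → Bool) × V) i =>
        (v.1, (P v.1).next i v.2 (x i))) (ω, (P ω).start)) =
        (ω, (List.finRange n).foldl (fun v i => (P ω).next i v (x i)) (P ω).start) := by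
      intro ω x
      generalize (P ω).start = v
      generalize List.finRange n = l
      induction l generalizing v with
      | nil => rfl
      | cons i l ih => exact ih _
    refine ⟨(Fin ρ → Bool) × V, inferInstance, fun ω => (ω, (P ω).start),
      fun i v b => (v.1, (P v.1).next i v.2 b), fun v => (P v.1).acc v.2, ?_, ?_⟩
    · rw [Nat.card_prod, Nat.card_eq_fintype_card, Fintype.card_fun, Fintype.card_bool,
        Fintype.card_fin]
      calc 2 ^ ρ * Nat.card V ≤ 2 ^ ρ * 2 ^ (6 * ρ) := Nat.mul_le_mul_left _ hcard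
        _ = (2 ^ ρ) ^ 7 := by ring
        _ ≤ n ^ 7 := Nat.pow_le_pow_left hρn 7
    · intro x
      simp only [hfold]
      constructor
      · intro hx
        have h1 := (hP x).1 (by simpa using hx)
        rw [Nat.card_eq_fintype_card, Fintype.card_subtype]
        have h2 : (univ.filter fun ω => (P ω).acc ((List.finRange n).foldl
          (fun v i => (P ω).next i v (x i)) (P ω).start)).card =
            (univ.filter fun ω => (P ω).Accepts x).card := rfl
        have h3 : 2 ^ ρ ≤ 2 * (univ.filter fun ω => (P ω).acc ((List.finRange n).foldl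
          (fun v i => (P ω).next i v (x i)) (P ω).start)).card := by
          rw [h2]
          convert h1
        exact h3
      · intro hx ω
        exact (hP x).2 (by simpa using hx) ω
  · intro V hV start var next out hcomp
    by_contra hcon
    push Not at hcon
    have hcore := core hsel hrec (k := k') (b := b) (by omega) hE1 hD (by
      have h1 : 2 * (64 * D * (2 * k' * ℓ + 1)) = 128 * D * (2 * k') * ℓ + 128 * D := by ring
      omega) hr2 hm1 he1 M hM w hw (by
      have := hcnt n e b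
      unfold Idx
      convert this) (pad hn0 var next out (k * n)) start (by
      intro x β i
      exact cov_pad hn0 var next out (k * n) hℓ1 (by rw [← Nat.succ_mul]; exact hr1) β x i) (by
      intro x z hz hx
      have hbd : ∀ y : Inp n, bd (pad hn0 var next out (k * n)) ℓ start y r =
          (fun v => if (out v).isSome then v else next v (y (var v)))^[k * n] start := by
        intro y
        unfold bd
        obtain ⟨c, hc⟩ := Nat.exists_eq_add_of_le
          (show k * n ≤ r * ℓ by rw [Nat.succ_mul] at hr1; omega)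
        rw [hc]
        exact run_pad_late hn0 var next out (k * n) y start c
      rw [hbd, hbd] at hz
      have h1 := hcomp x
      have h2 := hcomp z
      rw [hz, h1] at h2
      have h3 := Option.some_injective _ h2
      simp only [hx, ne_eq, not_true_eq_false, decide_false] at h3
      by_contra h4
      simp [h4] at h3) hcon
    rw [hs] at hcore
    exact final_num hD1 hn0 hn hK2 hr3 hb1 hb2 he2 hcore

end Pool.Agent.L0h32.LT
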