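import Pool.Agent.L0h32.LT.Asm

/-!
# One sequence of functions for all lengths
-/

set_option autoImplicit false

namespace Pool.Agent.L0h32.LT

open Finset

theorem hard_mono {n T T' : ℕ} {L L' : ℝ} {f : Inp n → Bool} (hT : T ≤ T') (hL : L' ≤ L)
    (h : Hard n T' L f) : Hard n T L' f := by
  intro V hV start var next out hcomp
  refine hL.trans_lt (h V hV start var next out fun x => ?_)
  obtain ⟨c, rfl⟩ := Nat.exists_eq_add_of_le hT
  have hc : ∀ c, (fun v => if (out v).isSome then v else next v (x (var v)))^[T + c] start =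
      (fun v => if (out v).isSome then v else next v (x (var v)))^[T] start := by
    intro c
    induction c with
    | zero => rfl
    | succ c ih =>
      rw [← Nat.add_assoc, Function.iterate_succ_apply', ih]
      show (if (out ((fun v => if (out v).isSome then v else next v (x (var v)))^[T]
        start)).isSome = true then _ else _) = _
      rw [if_pos (by rw [hcomp x]; rfl)]
  rw [hc, hcomp x]

/-- The function that uses its first `t` bits in order to select one of the functions `g`. -/
def sel {t n : ℕ} (g : Fin t → Inp n → Bool) (x : Inp (t + n)) : Bool :=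
  match (List.finRange t).find? (fun i => x (Fin.castAdd n i)) with
  | none => false
  | some k => g k (fun i => x (Fin.natAdd t i))

theorem finRange_add (t n : ℕ) : List.finRange (t + n) =
    (List.finRange t).map (Fin.castAdd n) ++ (List.finRange n).map (Fin.natAdd t) := by
  rw [← List.ofFn_id, ← List.ofFn_id t, ← List.ofFn_id n, List.ofFn_add, List.map_ofFn,
    List.map_ofFn]
  rfl

theorem sel_oneP {t n ρ B : ℕ} (g : Fin t → Inp n → Bool) (hg : ∀ k, OneP n ρ B (g k)) :
    OneP (t + n) ρ (2 ^ ρ + t * B) (sel g) := by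
  choose V hV start next acc hcard hdec using hg
  let W := (Fin ρ → Bool) ⊕ (Σ k : Fin t, V k)
  let A : Fin t → W → Bool → W := fun i w b => match w with
    | Sum.inl ω => if b then Sum.inr ⟨i, start i ω⟩ else Sum.inl ω
    | Sum.inr v => Sum.inr v
  let C : Fin n → W → Bool → W := fun i w b => match w with
    | Sum.inl ω => Sum.inl ω
    | Sum.inr v => Sum.inr ⟨v.1, next v.1 i v.2 b⟩
  let nx : Fin (t + n) → W → Bool → W := Fin.addCases A C
  let ac : W → Prop := fun w => match w with
    | Sum.inl _ => False
    | Sum.inr v => acc v.1 v.2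
  have hA0 : ∀ (x : Inp (t + n)) (l : List (Fin t)) (v : Σ k : Fin t, V k),
      l.foldl (fun w i => A i w (x (Fin.castAdd n i))) (Sum.inr v) = Sum.inr v := by
    intro x l v
    induction l with
    | nil => rfl
    | cons i l ih => exact ih
  have hA : ∀ (x : Inp (t + n)) (l : List (Fin t)) (ω : Fin ρ → Bool),
      l.foldl (fun w i => A i w (x (Fin.castAdd n i))) (Sum.inl ω) =
        match l.find? (fun i => x (Fin.castAdd n i)) with
        | none => Sum.inl ω
        | some k => Sum.inr ⟨k, start k ω⟩ := by
    intro x l ω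
    induction l with
    | nil => rfl
    | cons i l ih =>
      rw [List.foldl_cons, List.find?_cons]
      cases hx : x (Fin.castAdd n i) with
      | false =>
        exact ih
      | true =>
        have h1 : A i (Sum.inl ω) true = Sum.inr ⟨i, start i ω⟩ := rfl
        rw [h1]
        exact hA0 x l _
  have hC0 : ∀ (x : Inp (t + n)) (l : List (Fin n)) (ω : Fin ρ → Bool),
      l.foldl (fun w i => C i w (x (Fin.natAdd t i))) (Sum.inl ω) = Sum.inl ω := by
    intro x l ω
    induction l with
    | nil => rfl
    | cons i l ih => exact ih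
  have hC : ∀ (x : Inp (t + n)) (l : List (Fin n)) (k : Fin t) (v : V k),
      l.foldl (fun w i => C i w (x (Fin.natAdd t i))) (Sum.inr ⟨k, v⟩) =
        Sum.inr ⟨k, l.foldl (fun v i => next k i v (x (Fin.natAdd t i))) v⟩ := by
    intro x l k v
    induction l generalizing v with
    | nil => rfl
    | cons i l ih => exact ih _
  have hrun : ∀ (x : Inp (t + n)) (ω : Fin ρ → Bool),
      (List.finRange (t + n)).foldl (fun w i => nx i w (x i)) (Sum.inl ω) =
        (match (List.finRange t).find? (fun i => x (Fin.castAdd n i)) with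
        | none => Sum.inl ω
        | some k => Sum.inr ⟨k, (List.finRange n).foldl
          (fun v i => next k i v (x (Fin.natAdd t i))) (start k ω)⟩ : W) := by
    intro x ω
    rw [finRange_add, List.foldl_append, List.foldl_map, List.foldl_map]
    have h1 : ∀ w, (List.finRange t).foldl (fun w i => nx (Fin.castAdd n i) w
        (x (Fin.castAdd n i))) w = (List.finRange t).foldl (fun w i => A i w
          (x (Fin.castAdd n i))) w := by
      intro w
      congr 1
      funext w i
      show (Fin.addCases A C (Fin.castAdd n i) : W → Bool → W) w _ = _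
      rw [Fin.addCases_left]
    have h2 : ∀ w, (List.finRange n).foldl (fun w i => nx (Fin.natAdd t i) w
        (x (Fin.natAdd t i))) w = (List.finRange n).foldl (fun w i => C i w
          (x (Fin.natAdd t i))) w := by
      intro w
      congr 1
      funext w i
      show (Fin.addCases A C (Fin.natAdd t i) : W → Bool → W) w _ = _
      rw [Fin.addCases_right]
    rw [h1, h2, hA]
    cases (List.finRange t).find? (fun i => x (Fin.castAdd n i)) with
    | none => exact hC0 x _ ω
    | some k => exact hC x _ k _
  refine ⟨W, inferInstance, Sum.inl, nx, ac, ?_, ?_⟩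
  · have h1 : Nat.card W = 2 ^ ρ + ∑ k : Fin t, Nat.card (V k) := by
      rw [Nat.card_sum, Nat.card_sigma, Nat.card_eq_fintype_card, Fintype.card_fun,
        Fintype.card_bool, Fintype.card_fin]
    rw [h1]
    apply Nat.add_le_add_left
    refine (sum_le_card_nsmul _ _ B fun k _ => hcard k).trans ?_
    rw [card_univ, Fintype.card_fin, smul_eq_mul]
  · intro x
    simp only [hrun]
    unfold sel
    cases (List.finRange t).find? (fun i => x (Fin.castAdd n i)) with
    | none =>
      refine ⟨fun h => by simp at h, fun _ ω => ?_⟩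
      exact fun h => h
    | some k => exact hdec k fun i => x (Fin.natAdd t i)

theorem sel_hard {t n T : ℕ} {L : ℝ} (hn : 0 < n) (g : Fin t → Inp n → Bool) (k : Fin t)
    (hg : Hard n T L (g k)) : Hard (t + n) T L (sel g) := by
  intro V hV start var next out hcomp
  refine hg V hV start
    (fun v => Fin.addCases (motive := fun _ => Fin n) (fun _ => ⟨0, hn⟩) (fun j => j) (var v))
    (fun v b => Fin.addCases (motive := fun _ => V) (fun i => next v (decide (i = k)))
      (fun _ => next v b) (var v)) out fun y => ?_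
  have h1 := hcomp (Fin.addCases (motive := fun _ => Bool) (fun i => decide (i = k)) y)
  have h2 : sel g (Fin.addCases (motive := fun _ => Bool) (fun i => decide (i = k)) y) =
      g k y := by
    unfold sel
    simp only [Fin.addCases_left, Fin.addCases_right]
    cases hf : (List.finRange t).find? (fun i => decide (i = k)) with
    | none =>
      rw [List.find?_eq_none] at hf
      exact absurd (hf k (List.mem_finRange k)) (by simp)
    | some a =>
      have := List.find?_some hf
      have ha : a = k := by simpa using this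
      rw [ha]
  rw [h2] at h1
  rw [← h1]
  congr 1
  congr 1
  funext v
  by_cases hv : (out v).isSome = true
  · rw [if_pos hv, if_pos hv]
  · rw [if_neg hv, if_neg hv]
    generalize hw : var v = w
    induction w using Fin.addCases with
    | left i => simp only [Fin.addCases_left]
    | right i => simp only [Fin.addCases_right]

theorem oneP_false (n ρ B : ℕ) (hB : 1 ≤ B) : OneP n ρ B (fun _ => false) := by
  refine ⟨Unit, inferInstance, fun _ => (), fun _ _ _ => (), fun _ => False, ?_, ?_⟩
  · simpa using hB
  · intro x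
    exact ⟨fun h => by simp at h, fun _ _ h => h⟩

/-- **One sequence of functions for all lengths.** -/
theorem all_lengths (hsel : S_SEL) (hrnk : S_RNK) (hrec : S_REC) (hone : S_ONE) (hpar : S_PAR)
    (hcnt : S_CNT) : ∃ f : (n : ℕ) → Inp n → Bool,
      (∀ n, 1 ≤ n → ∃ ρ, 2 ^ ρ ≤ n ∧ OneP n ρ (n ^ 8) (f n)) ∧
      ∀ k : ℕ, ∃ γ : ℝ, 0 < γ ∧ ∃ n₀ : ℕ, ∀ n ≥ n₀, Hard n (k * n) (2 ^ (γ * n)) (f n) := by
  classical
  choose γ hγ n₀ hn₀ using assembly hsel hrnk hrec hone hpar hcnt
  have key : ∀ N : ℕ, ∃ f : Inp N → Bool,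
      (1 ≤ N → ∃ ρ, 2 ^ ρ ≤ N ∧ OneP N ρ (N ^ 8) f) ∧
      ∀ k, k < N / 2 → n₀ k ≤ N - N / 2 →
        Hard N (k * (N - N / 2)) (2 ^ (γ k * (N - N / 2 : ℕ))) f := by
    intro N
    obtain ⟨t, n, ht, hn, rfl⟩ : ∃ t n, t = N / 2 ∧ n = N - N / 2 ∧ N = t + n :=
      ⟨_, _, rfl, rfl, by omega⟩
    rw [← ht]
    have e : t + n - t = n := by omega
    rw [e]
    rcases Nat.eq_zero_or_pos n with h0 | h0
    · refine ⟨fun _ => false, fun h => ?_, fun k hk => ?_⟩
      · omega
      · omega
    have hg : ∀ k : Fin t, ∃ g : Inp n → Bool, OneP n (Nat.log 2 n) (n ^ 7) g ∧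
        (n₀ k ≤ n → Hard n (k * n) (2 ^ (γ k * n)) g) := by
      intro k
      by_cases h : n₀ k ≤ n
      · obtain ⟨g, h1, h2⟩ := hn₀ k n h
        exact ⟨g, h1, fun _ => h2⟩
      · exact ⟨fun _ => false, oneP_false _ _ _ (Nat.one_le_pow _ _ h0), fun h' => absurd h' h⟩
    choose g hg1 hg2 using hg
    refine ⟨sel g, fun _ => ⟨Nat.log 2 n, ?_, ?_⟩, fun k hk hk' => ?_⟩
    · exact (Nat.pow_log_le_self 2 h0.ne').trans (by omega)
    · obtain ⟨V, hV, start, next, acc, h1, h2⟩ := sel_oneP g hg1
      refine ⟨V, hV, start, next, acc, h1.trans ?_, h2⟩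
      have h3 : 2 ^ Nat.log 2 n ≤ n ^ 7 :=
        (Nat.pow_log_le_self 2 h0.ne').trans (Nat.le_self_pow (by norm_num) n)
      calc 2 ^ Nat.log 2 n + t * n ^ 7 ≤ n ^ 7 + t * n ^ 7 := Nat.add_le_add_right h3 _
        _ = (t + 1) * n ^ 7 := by ring
        _ ≤ (t + n) * (t + n) ^ 7 :=
          Nat.mul_le_mul (by omega) (Nat.pow_le_pow_left (by omega) 7)
        _ = (t + n) ^ 8 := by ring
    · exact sel_hard h0 g ⟨k, hk⟩ (hg2 ⟨k, hk⟩ hk')
  choose f hf1 hf2 using key
  refine ⟨f, hf1, fun k => ⟨γ (2 * k) / 2, half_pos (hγ _), 2 * n₀ (2 * k) + 4 * k + 2, ?_⟩⟩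
  intro N hN
  refine hard_mono ?_ ?_ (hf2 N (2 * k) (by omega) (by omega))
  · have : N ≤ 2 * (N - N / 2) := by omega
    calc k * N ≤ k * (2 * (N - N / 2)) := Nat.mul_le_mul_left _ this
      _ = 2 * k * (N - N / 2) := by ring
  · apply Real.rpow_le_rpow_of_exponent_le (by norm_num)
    have h1 : (N : ℝ) ≤ 2 * ((N - N / 2 : ℕ) : ℝ) := by
      have : N ≤ 2 * (N - N / 2) := by omega
      exact_mod_cast this
    have h2 := hγ (2 * k)
    nlinarith

end Pool.Agent.L0h32.LT
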