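import Pool.Agent.L0h32.LT.Mach

/-!
# The main counting lemma
-/

set_option autoImplicit false

namespace Pool.Agent.L0h32.LT

open Finset Polynomial

variable {n : ℕ} {V : Type}

/-- The pairs of a small set and a subset. -/
def Idx (n e : ℕ) : Finset (Finset (Fin n) × Finset (Fin n)) :=
  univ.filter fun P => P.2 ⊆ P.1 ∧ P.1.card ≤ e

open Classical in
theorem half_count {P : Mach n V} {ℓ : ℕ} {β : ℕ → V} {r : ℕ} {F : Fin r → ℕ}
    {Z : Finset (Fin n)} {j K s e a b : ℕ} (hab : (a = 0 ∧ b = 1) ∨ (a = 1 ∧ b = 0))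
    (S T : Finset (Inp n)) (hTS : T ⊆ S) (hE : ∀ x ∈ S, (Ex P ℓ β F Z j x).card ≤ e)
    (hT : ∀ x ∈ T, ((S.filter fun y => Lb P ℓ β F Z a y = Lb P ℓ β F Z a x ∧
      Lb P ℓ β F Z b y = Lb P ℓ β F Z b x ∧ ∀ i, i ∉ Lb P ℓ β F Z a x →
        i ∉ Lb P ℓ β F Z b x → y i = x i).image (rst (Lb P ℓ β F Z a x))).card * 2 ^ (3 * K) ≤
          2 ^ ((Lb P ℓ β F Z a x).card + s)) :
    T.card * 2 ^ (3 * K) ≤ (Idx n e).card * 2 ^ (n + s) := by
  have hpart : T.card = ∑ p ∈ Idx n e, (T.filter fun x =>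
      (Ex P ℓ β F Z j x, Ex P ℓ β F Z j x ∩ Lb P ℓ β F Z b x) = p).card := by
    apply card_eq_sum_card_fiberwise
    intro x hx
    refine mem_coe.2 (mem_filter.2 ⟨mem_univ _, inter_subset_left, hE x (hTS hx)⟩)
  rw [hpart, sum_mul]
  refine (sum_le_card_nsmul _ _ (2 ^ (n + s)) fun p _ => ?_).trans (by rw [smul_eq_mul])
  have h := cube_count (T := T.filter fun x =>
      (Ex P ℓ β F Z j x, Ex P ℓ β F Z j x ∩ Lb P ℓ β F Z b x) = p)
    (A := fun x => Lb P ℓ β F Z a x) (Λ := 2 ^ (3 * K)) (c := 2 ^ s) ?_ ?_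
  · rw [pow_add, mul_comm (2 ^ n)]
    exact h
  · intro x _ y _ hxy
    exact Lb_eq hxy
  · intro x hx
    obtain ⟨hxT, hxp⟩ := mem_filter.1 hx
    rw [← pow_add]
    refine (Nat.mul_le_mul_right _ ?_).trans (hT x hxT)
    apply card_le_card_of_injOn (rst (Lb P ℓ β F Z a x))
    · intro y hy
      obtain ⟨hy1, hy2, hy3⟩ := mem_filter.1 (mem_coe.1 hy)
      obtain ⟨hyT, hyp⟩ := mem_filter.1 hy1
      apply mem_coe.2
      apply mem_image_of_mem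
      have hpp := hyp.trans hxp.symm
      have h1 : Ex P ℓ β F Z j y = Ex P ℓ β F Z j x := congrArg Prod.fst hpp
      have h2 : Ex P ℓ β F Z j y ∩ Lb P ℓ β F Z b y = Ex P ℓ β F Z j x ∩ Lb P ℓ β F Z b x :=
        congrArg Prod.snd hpp
      refine mem_filter.2 ⟨hTS hyT, hy2, ?_, fun i hi _ => hy3 i hi⟩
      apply other_eq hab _ h1 h2
      intro i _ hi
      exact hy3 i hi
    · intro y hy z hz hyz
      obtain ⟨_, _, hy3⟩ := mem_filter.1 (mem_coe.1 hy)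
      obtain ⟨_, _, hz3⟩ := mem_filter.1 (mem_coe.1 hz)
      funext i
      by_cases hi : i ∈ Lb P ℓ β F Z a x
      · have := congrFun hyz i
        unfold rst at this
        rwa [if_pos hi, if_pos hi] at this
      · rw [hy3 i hi, hz3 i hi]

/-- **The main counting lemma.** -/
theorem main_count (hrec : S_REC) {m K s e r j : ℕ} (P : Mach n V) (ℓ : ℕ) (v₀ : V) (β : ℕ → V)
    (F : Fin r → ℕ) (Z : Finset (Fin n)) (M : Fin n → (Fin 6 × Fin K → ZMod 2)) (w : (ZMod 2)[X])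
    (hrk : ∀ A : Finset (Fin n), m ≤ A.card →
      6 * K ≤ Module.finrank (ZMod 2) (Submodule.span (ZMod 2) (M '' A)) + s)
    (S : Finset (Inp n)) (hbd : ∀ x ∈ S, ∀ s ≤ r, bd P ℓ v₀ x s = β s)
    (hcov : ∀ x ∈ S, ∀ i, (tt P ℓ β r x i).Nonempty)
    (hE : ∀ x ∈ S, (Ex P ℓ β F Z j x).card ≤ e)
    (h0 : ∀ x ∈ S, m ≤ (Lb P ℓ β F Z 0 x).card) (h1 : ∀ x ∈ S, m ≤ (Lb P ℓ β F Z 1 x).card)
    (hacc : ∀ z, bd P ℓ v₀ z r = β r → quad M z = w) :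
    S.card * 2 ^ (3 * K) ≤ 2 * (Idx n e).card * 2 ^ (n + s) := by
  classical
  have hdis : ∀ x ∈ S, Disjoint (Lb P ℓ β F Z 0 x) (Lb P ℓ β F Z 1 x) := by
    intro x hx
    rw [disjoint_left]
    intro i hi hi'
    obtain ⟨t, ht⟩ := hcov x hx i
    have e1 := (mem_filter.1 hi).2 t ht
    have e2 := (mem_filter.1 hi').2 t ht
    omega
  -- the mixed inputs of a class are accepted
  have hmix : ∀ x ∈ S, ∀ y z : Inp n, y ∈ S → z ∈ S →
      (Lb P ℓ β F Z 0 y = Lb P ℓ β F Z 0 x) → (Lb P ℓ β F Z 0 z = Lb P ℓ β F Z 0 x) →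
      (Lb P ℓ β F Z 1 y = Lb P ℓ β F Z 1 x) →
      (∀ i, i ∉ Lb P ℓ β F Z 0 x → i ∉ Lb P ℓ β F Z 1 x → y i = z i) →
      quad M (mix (Lb P ℓ β F Z 1 x) y z) = w := by
    intro x _ y z hy hz h2 h3 h4 h6
    apply hacc
    rw [← h4]
    refine bd_mix (hbd y hy) (hbd z hz) (h2.trans h3.symm) ?_ r le_rfl
    rw [h2, h4]
    exact h6
  set T₁ := S.filter fun x => ((S.filter fun y => Lb P ℓ β F Z 0 y = Lb P ℓ β F Z 0 x ∧
      Lb P ℓ β F Z 1 y = Lb P ℓ β F Z 1 x ∧ ∀ i, i ∉ Lb P ℓ β F Z 0 x →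
        i ∉ Lb P ℓ β F Z 1 x → y i = x i).image (rst (Lb P ℓ β F Z 0 x))).card * 2 ^ (3 * K) ≤
          2 ^ ((Lb P ℓ β F Z 0 x).card + s) with hT₁
  set T₂ := S.filter fun x => ((S.filter fun y => Lb P ℓ β F Z 1 y = Lb P ℓ β F Z 1 x ∧
      Lb P ℓ β F Z 0 y = Lb P ℓ β F Z 0 x ∧ ∀ i, i ∉ Lb P ℓ β F Z 1 x →
        i ∉ Lb P ℓ β F Z 0 x → y i = x i).image (rst (Lb P ℓ β F Z 1 x))).card * 2 ^ (3 * K) ≤
          2 ^ ((Lb P ℓ β F Z 1 x).card + s) with hT₂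
  have hcover : S ⊆ T₁ ∪ T₂ := by
    intro x hx
    rw [mem_union]
    have h := hrec n m K s M hrk w (Lb P ℓ β F Z 0 x) (Lb P ℓ β F Z 1 x) (hdis x hx) (h0 x hx)
      (h1 x hx) (S.filter fun y => Lb P ℓ β F Z 0 y = Lb P ℓ β F Z 0 x ∧
      Lb P ℓ β F Z 1 y = Lb P ℓ β F Z 1 x ∧ ∀ i, i ∉ Lb P ℓ β F Z 0 x →
        i ∉ Lb P ℓ β F Z 1 x → y i = x i) ?_ ?_
    · rcases h with h | h
      · left
        exact mem_filter.2 ⟨hx, h⟩
      · right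
        refine mem_filter.2 ⟨hx, ?_⟩
        have heq : (S.filter fun y => Lb P ℓ β F Z 1 y = Lb P ℓ β F Z 1 x ∧
            Lb P ℓ β F Z 0 y = Lb P ℓ β F Z 0 x ∧ ∀ i, i ∉ Lb P ℓ β F Z 1 x →
              i ∉ Lb P ℓ β F Z 0 x → y i = x i) =
            S.filter fun y => Lb P ℓ β F Z 0 y = Lb P ℓ β F Z 0 x ∧
              Lb P ℓ β F Z 1 y = Lb P ℓ β F Z 1 x ∧ ∀ i, i ∉ Lb P ℓ β F Z 0 x →
                i ∉ Lb P ℓ β F Z 1 x → y i = x i := by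
          apply filter_congr
          intro y _
          constructor
          · rintro ⟨g1, g2, g3⟩
            exact ⟨g2, g1, fun i hi hi' => g3 i hi' hi⟩
          · rintro ⟨g1, g2, g3⟩
            exact ⟨g2, g1, fun i hi hi' => g3 i hi' hi⟩
        rw [heq]
        exact h
    · intro y hy z hz i hi hi'
      rw [(mem_filter.1 hy).2.2.2 i hi hi', (mem_filter.1 hz).2.2.2 i hi hi']
    · intro y hy z hz
      obtain ⟨hyS, hy1, hy2, hy3⟩ := mem_filter.1 hy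
      obtain ⟨hzS, hz1, _, hz3⟩ := mem_filter.1 hz
      exact hmix x hx y z hyS hzS hy1 hz1 hy2 fun i hi hi' => by
        rw [hy3 i hi hi', hz3 i hi hi']
  have g1 : T₁.card * 2 ^ (3 * K) ≤ (Idx n e).card * 2 ^ (n + s) :=
    half_count (a := 0) (b := 1) (Or.inl ⟨rfl, rfl⟩) S T₁ (filter_subset _ _) hE
      fun x hx => (mem_filter.1 hx).2
  have g2 : T₂.card * 2 ^ (3 * K) ≤ (Idx n e).card * 2 ^ (n + s) :=
    half_count (a := 1) (b := 0) (Or.inr ⟨rfl, rfl⟩) S T₂ (filter_subset _ _) hE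
      fun x hx => (mem_filter.1 hx).2
  have g3 : S.card ≤ T₁.card + T₂.card := (card_le_card hcover).trans (card_union_le _ _)
  calc S.card * 2 ^ (3 * K) ≤ (T₁.card + T₂.card) * 2 ^ (3 * K) := Nat.mul_le_mul_right _ g3
    _ = T₁.card * 2 ^ (3 * K) + T₂.card * 2 ^ (3 * K) := by ring
    _ ≤ (Idx n e).card * 2 ^ (n + s) + (Idx n e).card * 2 ^ (n + s) := Nat.add_le_add g1 g2
    _ = 2 * (Idx n e).card * 2 ^ (n + s) := by ring

end Pool.Agent.L0h32.LT
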