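import Pool.Agent.L0h32.LT.Stm

/-!
# Machines, segments and rectangles
-/

set_option autoImplicit false

namespace Pool.Agent.L0h32.LT

open Finset

/-- A machine: at each time it reads a variable and changes its state. -/
structure Mach (n : ℕ) (V : Type) where
  q : ℕ → V → Fin n
  δ : ℕ → V → Bool → V

variable {n : ℕ} {V : Type}

/-- The state after `t` steps from the state `v` at the time `τ`. -/
def Mach.run (P : Mach n V) (x : Inp n) (τ : ℕ) (v : V) : ℕ → V
  | 0 => v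
  | t + 1 => P.δ (τ + t) (P.run x τ v t) (x (P.q (τ + t) (P.run x τ v t)))

/-- The variables which are read. -/
def Mach.rd (P : Mach n V) (x : Inp n) (τ : ℕ) (v : V) (t : ℕ) : Finset (Fin n) :=
  (range t).image fun i => P.q (τ + i) (P.run x τ v i)

theorem run_congr {P : Mach n V} {x y : Inp n} {τ t : ℕ} {v : V}
    (h : ∀ i ∈ P.rd x τ v t, x i = y i) : ∀ t' ≤ t, P.run y τ v t' = P.run x τ v t' := by
  intro t'
  induction t' with
  | zero => intro _; rfl
  | succ t' ih =>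
    intro ht
    have h1 := ih (by omega)
    have h2 : P.q (τ + t') (P.run x τ v t') ∈ P.rd x τ v t :=
      mem_image.2 ⟨t', mem_range.2 (by omega), rfl⟩
    show P.δ (τ + t') (P.run y τ v t') (y (P.q (τ + t') (P.run y τ v t'))) =
      P.δ (τ + t') (P.run x τ v t') (x (P.q (τ + t') (P.run x τ v t')))
    rw [h1, h _ h2]

theorem rd_congr {P : Mach n V} {x y : Inp n} {τ t : ℕ} {v : V}
    (h : ∀ i ∈ P.rd x τ v t, x i = y i) : P.rd y τ v t = P.rd x τ v t := by
  unfold Mach.rd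
  apply image_congr
  intro i hi
  have hi' : i < t := by simpa using hi
  show P.q (τ + i) (P.run y τ v i) = P.q (τ + i) (P.run x τ v i)
  rw [run_congr h i hi'.le]

theorem run_add (P : Mach n V) (x : Inp n) (τ : ℕ) (v : V) (a b : ℕ) :
    P.run x τ v (a + b) = P.run x (τ + a) (P.run x τ v a) b := by
  induction b with
  | zero => rfl
  | succ b ih =>
    show P.δ (τ + (a + b)) (P.run x τ v (a + b)) (x (P.q (τ + (a + b)) (P.run x τ v (a + b)))) =
      P.δ (τ + a + b) (P.run x (τ + a) (P.run x τ v a) b)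
        (x (P.q (τ + a + b) (P.run x (τ + a) (P.run x τ v a) b)))
    rw [ih, Nat.add_assoc]

theorem card_rd_le (P : Mach n V) (x : Inp n) (τ : ℕ) (v : V) (t : ℕ) :
    (P.rd x τ v t).card ≤ t := by
  unfold Mach.rd
  exact card_image_le.trans (by simp)

section
variable (P : Mach n V) (ℓ : ℕ) (v₀ : V)

/-- The state at the beginning of the segment `s`. -/
def bd (x : Inp n) (s : ℕ) : V := P.run x 0 v₀ (s * ℓ)

theorem bd_succ (x : Inp n) (s : ℕ) :
    bd P ℓ v₀ x (s + 1) = P.run x (s * ℓ) (bd P ℓ v₀ x s) ℓ := by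
  unfold bd
  rw [Nat.succ_mul, run_add, Nat.zero_add]

end

section
variable (P : Mach n V) (ℓ : ℕ) (β : ℕ → V)

/-- The variables read in the segment `s`, which begins in the state `β s`. -/
def seg (x : Inp n) (s : ℕ) : Finset (Fin n) := P.rd x (s * ℓ) (β s) ℓ

/-- The segments in which a variable is read. -/
def tt (r : ℕ) (x : Inp n) (i : Fin n) : Finset (Fin r) := univ.filter fun s => i ∈ seg P ℓ β x s

variable {r : ℕ} (F : Fin r → ℕ) (Z : Finset (Fin n))

/-- The variables in `Z` that are only read in segments with the label `a`. -/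
def Lb (a : ℕ) (x : Inp n) : Finset (Fin n) := Z.filter fun i => ∀ s ∈ tt P ℓ β r x i, F s = a

/-- The exceptional variables. -/
def Ex (j : ℕ) (x : Inp n) : Finset (Fin n) :=
  Z.filter fun i => (tt P ℓ β r x i).card ≠ j ∧ ∀ s ∈ tt P ℓ β r x i, F s = 0 ∨ F s = 1

variable {P ℓ β F Z}

theorem seg_congr {x y : Inp n} {s : ℕ} (h : ∀ i ∈ seg P ℓ β x s, x i = y i) :
    seg P ℓ β y s = seg P ℓ β x s := rd_congr h

theorem not_mem_Lb {x : Inp n} {a : ℕ} {s : Fin r} (hs : F s ≠ a) {i : Fin n}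
    (hi : i ∈ seg P ℓ β x s) : i ∉ Lb P ℓ β F Z a x := by
  intro h
  exact hs ((mem_filter.1 h).2 s (mem_filter.2 ⟨mem_univ _, hi⟩))

theorem seg_eq {x y : Inp n} {a : ℕ}
    (h : ∀ i, i ∉ Lb P ℓ β F Z a x → i ∉ Lb P ℓ β F Z a y → x i = y i) (s : Fin r)
    (hs : F s ≠ a) : seg P ℓ β x s = seg P ℓ β y s := by
  have h1 : seg P ℓ β (mix (Lb P ℓ β F Z a x) x y) s = seg P ℓ β x s := by
    apply seg_congr
    intro i hi
    unfold mix
    rw [if_neg (not_mem_Lb hs hi)]
  have h2 : seg P ℓ β (mix (Lb P ℓ β F Z a x) x y) s = seg P ℓ β y s := by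
    apply seg_congr
    intro i hi
    unfold mix
    split_ifs with h3
    · rfl
    · exact (h i h3 (not_mem_Lb hs hi)).symm
  rw [← h1, h2]

theorem Lb_sub {x y : Inp n} {a : ℕ}
    (h : ∀ i, i ∉ Lb P ℓ β F Z a x → i ∉ Lb P ℓ β F Z a y → x i = y i) :
    Lb P ℓ β F Z a x ⊆ Lb P ℓ β F Z a y := by
  intro i hi
  obtain ⟨h1, h2⟩ := mem_filter.1 hi
  refine mem_filter.2 ⟨h1, fun s hs => ?_⟩
  by_contra h3
  apply h3
  apply h2
  refine mem_filter.2 ⟨mem_univ _, ?_⟩
  rw [seg_eq h s h3]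
  exact (mem_filter.1 hs).2

theorem Lb_eq {x y : Inp n} {a : ℕ}
    (h : ∀ i, i ∉ Lb P ℓ β F Z a x → i ∉ Lb P ℓ β F Z a y → x i = y i) :
    Lb P ℓ β F Z a x = Lb P ℓ β F Z a y :=
  Subset.antisymm (Lb_sub h) (Lb_sub fun i h1 h2 => (h i h2 h1).symm)

theorem other_sub {x y : Inp n} {a b j : ℕ} (hab : (a = 0 ∧ b = 1) ∨ (a = 1 ∧ b = 0))
    (h : ∀ i, i ∉ Lb P ℓ β F Z a x → i ∉ Lb P ℓ β F Z a y → x i = y i)
    (hE : Ex P ℓ β F Z j x = Ex P ℓ β F Z j y)
    (hE' : Ex P ℓ β F Z j x ∩ Lb P ℓ β F Z b x = Ex P ℓ β F Z j y ∩ Lb P ℓ β F Z b y) :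
    Lb P ℓ β F Z b x ⊆ Lb P ℓ β F Z b y := by
  intro i hi
  by_cases h1 : i ∈ Ex P ℓ β F Z j x
  · have h2 : i ∈ Ex P ℓ β F Z j x ∩ Lb P ℓ β F Z b x := mem_inter.2 ⟨h1, hi⟩
    rw [hE'] at h2
    exact (mem_inter.1 h2).2
  · have h2 : i ∉ Ex P ℓ β F Z j y := by rw [← hE]; exact h1
    obtain ⟨hZ, h3⟩ := mem_filter.1 hi
    have hne : a ≠ b := by omega
    have hseg : ∀ s : Fin r, F s ≠ a → (s ∈ tt P ℓ β r x i ↔ s ∈ tt P ℓ β r y i) := by
      intro s hs
      unfold tt
      rw [mem_filter, mem_filter, seg_eq h s hs]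
    have hx : (tt P ℓ β r x i).card = j := by
      by_contra hcon
      apply h1
      refine mem_filter.2 ⟨hZ, hcon, fun s hs => ?_⟩
      have := h3 s hs
      omega
    have hsub : tt P ℓ β r x i ⊆ tt P ℓ β r y i := by
      intro s hs
      refine (hseg s ?_).1 hs
      rw [h3 s hs]
      exact hne.symm
    have hy : (tt P ℓ β r y i).card = j := by
      by_contra hcon
      apply h2
      refine mem_filter.2 ⟨hZ, hcon, fun s hs => ?_⟩
      by_cases hs' : F s = a
      · omega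
      · have := h3 s ((hseg s hs').2 hs)
        omega
    have heq := eq_of_subset_of_card_le hsub (by rw [hx, hy])
    refine mem_filter.2 ⟨hZ, fun s hs => ?_⟩
    rw [← heq] at hs
    exact h3 s hs

theorem other_eq {x y : Inp n} {a b j : ℕ} (hab : (a = 0 ∧ b = 1) ∨ (a = 1 ∧ b = 0))
    (h : ∀ i, i ∉ Lb P ℓ β F Z a x → i ∉ Lb P ℓ β F Z a y → x i = y i)
    (hE : Ex P ℓ β F Z j x = Ex P ℓ β F Z j y)
    (hE' : Ex P ℓ β F Z j x ∩ Lb P ℓ β F Z b x = Ex P ℓ β F Z j y ∩ Lb P ℓ β F Z b y) :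
    Lb P ℓ β F Z b x = Lb P ℓ β F Z b y :=
  Subset.antisymm (other_sub hab h hE hE')
    (other_sub hab (fun i h1 h2 => (h i h2 h1).symm) hE.symm hE'.symm)

/-- The machine cannot distinguish the mixed input. -/
theorem bd_mix {v₀ : V} {x y : Inp n}
    (hx : ∀ s ≤ r, bd P ℓ v₀ x s = β s) (hy : ∀ s ≤ r, bd P ℓ v₀ y s = β s)
    (hA : Lb P ℓ β F Z 0 x = Lb P ℓ β F Z 0 y)
    (hxy : ∀ i, i ∉ Lb P ℓ β F Z 0 x → i ∉ Lb P ℓ β F Z 1 x → x i = y i) :
    ∀ s ≤ r, bd P ℓ v₀ (mix (Lb P ℓ β F Z 1 x) x y) s = β s := by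
  intro s
  induction s with
  | zero =>
    intro _
    rw [← hx 0 (Nat.zero_le _)]
    unfold bd
    rw [Nat.zero_mul]
    rfl
  | succ s ih =>
    intro hs
    have h1 := ih (by omega)
    rw [bd_succ, h1]
    have hs' : s < r := by omega
    by_cases hF : F ⟨s, hs'⟩ = 1
    · have h2 : ∀ i ∈ P.rd y (s * ℓ) (β s) ℓ, y i = mix (Lb P ℓ β F Z 1 x) x y i := by
        intro i hi
        have h3 : i ∉ Lb P ℓ β F Z 0 y :=
          not_mem_Lb (s := ⟨s, hs'⟩) (by rw [hF]; norm_num) hi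
        unfold mix
        split_ifs with h4
        · rfl
        · exact (hxy i (by rw [hA]; exact h3) h4).symm
      rw [run_congr h2 ℓ le_rfl, ← hy s (by omega), ← bd_succ, hy (s + 1) hs]
    · have h2 : ∀ i ∈ P.rd x (s * ℓ) (β s) ℓ, x i = mix (Lb P ℓ β F Z 1 x) x y i := by
        intro i hi
        have h3 : i ∉ Lb P ℓ β F Z 1 x := not_mem_Lb (s := ⟨s, hs'⟩) hF hi
        unfold mix
        rw [if_neg h3]
      rw [run_congr h2 ℓ le_rfl, ← hx s (by omega), ← bd_succ, hx (s + 1) hs]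

end

/-! ### Counting with cubes -/

/-- The cube of the inputs that agree with `x` outside `A`. -/
def cube (A : Finset (Fin n)) (x : Inp n) : Finset (Inp n) :=
  Fintype.piFinset fun i => if i ∈ A then univ else {x i}

theorem mem_cube {A : Finset (Fin n)} {x z : Inp n} : z ∈ cube A x ↔ ∀ i, i ∉ A → z i = x i := by
  unfold cube
  rw [Fintype.mem_piFinset]
  constructor
  · intro h i hi
    have := h i
    rw [if_neg hi] at this
    simpa using this
  · intro h i
    split_ifs with hi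
    · exact mem_univ _
    · simpa using h i hi

theorem card_cube (A : Finset (Fin n)) (x : Inp n) : (cube A x).card = 2 ^ A.card := by
  unfold cube
  rw [Fintype.card_piFinset]
  have : ∀ i, (if i ∈ A then (univ : Finset Bool) else {x i}).card = if i ∈ A then 2 else 1 := by
    intro i
    split_ifs <;> simp
  rw [prod_congr rfl fun i _ => this i, prod_ite]
  simp

open Classical in
theorem cube_count {T : Finset (Inp n)} {A : Inp n → Finset (Fin n)} {Λ c : ℕ}
    (hA : ∀ x ∈ T, ∀ y ∈ T, (∀ i, i ∉ A x → i ∉ A y → x i = y i) → A x = A y)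
    (hT : ∀ x ∈ T, (T.filter fun y => A y = A x ∧ ∀ i, i ∉ A x → y i = x i).card * Λ ≤
      2 ^ (A x).card * c) : T.card * Λ ≤ c * 2 ^ n := by
  have key : ∀ z : Inp n, ∑ x ∈ T.filter (fun x => z ∈ cube (A x) x),
      (Λ : ℝ) / 2 ^ (A x).card ≤ c := by
    intro z
    rcases (T.filter fun x => z ∈ cube (A x) x).eq_empty_or_nonempty with h | ⟨x₀, h⟩
    · rw [h, sum_empty]
      positivity
    · obtain ⟨h1, h2⟩ := mem_filter.1 h
      rw [mem_cube] at h2
      have h3 : ∀ x ∈ T.filter (fun x => z ∈ cube (A x) x),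
          A x = A x₀ ∧ ∀ i, i ∉ A x₀ → x i = x₀ i := by
        intro x hx
        obtain ⟨h4, h5⟩ := mem_filter.1 hx
        rw [mem_cube] at h5
        have h6 : A x = A x₀ := hA x h4 x₀ h1 fun i hi hi' => by rw [← h5 i hi, h2 i hi']
        refine ⟨h6, fun i hi => ?_⟩
        rw [← h5 i (by rw [h6]; exact hi), h2 i hi]
      have h4 : ∑ x ∈ T.filter (fun x => z ∈ cube (A x) x), (Λ : ℝ) / 2 ^ (A x).card =
          ∑ x ∈ T.filter (fun x => z ∈ cube (A x) x), (Λ : ℝ) / 2 ^ (A x₀).card :=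
        sum_congr rfl fun x hx => by rw [(h3 x hx).1]
      rw [h4, sum_const, nsmul_eq_mul]
      have h5 : (T.filter fun x => z ∈ cube (A x) x).card ≤
          (T.filter fun y => A y = A x₀ ∧ ∀ i, i ∉ A x₀ → y i = x₀ i).card := by
        apply card_le_card
        intro x hx
        exact mem_filter.2 ⟨(mem_filter.1 hx).1, h3 x hx⟩
      have h6 := hT x₀ h1
      have h7 : ((T.filter fun x => z ∈ cube (A x) x).card : ℝ) * Λ ≤ 2 ^ (A x₀).card * c := by
        have h8 := (Nat.mul_le_mul_right Λ h5).trans h6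
        exact_mod_cast h8
      rw [← mul_div_assoc, div_le_iff₀ (by positivity)]
      linarith
  have hsum : ((T.card * Λ : ℕ) : ℝ) = ∑ z : Inp n, ∑ x ∈ T.filter (fun x => z ∈ cube (A x) x),
      (Λ : ℝ) / 2 ^ (A x).card := by
    simp only [sum_filter]
    rw [sum_comm]
    have h1 : ∀ x ∈ T, (∑ z : Inp n, if z ∈ cube (A x) x then (Λ : ℝ) / 2 ^ (A x).card else 0) =
        Λ := by
      intro x _
      rw [← sum_filter, sum_const, nsmul_eq_mul]
      have h2 : (univ.filter fun z => z ∈ cube (A x) x) = cube (A x) x := by ext; simp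
      rw [h2, card_cube]
      push_cast
      field_simp
    rw [sum_congr rfl h1, sum_const, nsmul_eq_mul]
    push_cast
    ring
  have h1 : ((T.card * Λ : ℕ) : ℝ) ≤ ((c * 2 ^ n : ℕ) : ℝ) := by
    rw [hsum]
    refine (sum_le_sum fun z _ => key z).trans ?_
    rw [sum_const, nsmul_eq_mul, card_univ, Fintype.card_fun]
    simp only [Fintype.card_bool, Fintype.card_fin]
    push_cast
    linarith
  exact_mod_cast h1

end Pool.Agent.L0h32.LT
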