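import Pool.Agent.L0h32.LT.Pop

/-!
# Numerical part
-/

set_option autoImplicit false

namespace Pool.Agent.L0h32.LT

open Finset Polynomial

theorem one_add_le_two_rpow {x : ℝ} (hx : 0 ≤ x) : 1 + x ≤ (2 : ℝ) ^ (2 * x) := by
  have h1 : 1 + x ≤ Real.exp x := by
    have := Real.add_one_le_exp x
    linarith
  refine h1.trans ?_
  rw [Real.rpow_def_of_pos (by norm_num)]
  apply Real.exp_le_exp.2
  have := Real.log_two_gt_d9
  nlinarith

theorem num {L r v n K s b e I : ℕ} {γ : ℝ} (h1 : 2 ^ K ≤ L * v ^ (r + 1) * I * 2 ^ s)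
    (h2 : I * 2 ^ (b * n) ≤ 2 ^ (b * e) * (2 ^ b + 2) ^ n) (hv : (v : ℝ) ≤ 2 ^ (γ * n)) :
    (K : ℝ) ≤ L + s + (r + 1) * (γ * n) + b * e + 4 * n / 2 ^ b := by
  have e1 : (L : ℝ) ≤ 2 ^ (L : ℝ) := by
    rw [Real.rpow_natCast]
    exact_mod_cast Nat.lt_two_pow_self.le
  have e2 : (v : ℝ) ^ (r + 1) ≤ 2 ^ ((r + 1) * (γ * n)) := by
    calc (v : ℝ) ^ (r + 1) ≤ ((2 : ℝ) ^ (γ * n)) ^ (r + 1) := by gcongr
      _ = 2 ^ ((r + 1) * (γ * n)) := by
        rw [← Real.rpow_natCast, ← Real.rpow_mul (by norm_num)]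
        congr 1
        push_cast
        ring
  have e3 : (I : ℝ) ≤ 2 ^ ((b : ℝ) * e) * 2 ^ (4 * (n : ℝ) / 2 ^ b) := by
    have h3 : (I : ℝ) * 2 ^ (b * n) ≤ 2 ^ (b * e) * (2 ^ b + 2) ^ n := by exact_mod_cast h2
    have h4 : (2 : ℝ) ^ (b * n) = (2 ^ b) ^ n := by rw [pow_mul]
    have h5 : ((2 : ℝ) ^ b + 2) ^ n = (2 ^ b) ^ n * (1 + 2 / 2 ^ b) ^ n := by
      rw [← mul_pow]
      congr 1
      field_simp
    have h6 : (I : ℝ) ≤ 2 ^ (b * e) * (1 + 2 / 2 ^ b) ^ n := by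
      rw [h4, h5] at h3
      have h7 : (0 : ℝ) < (2 ^ b) ^ n := by positivity
      have h8 : (I : ℝ) * (2 ^ b) ^ n ≤ (2 ^ (b * e) * (1 + 2 / 2 ^ b) ^ n) * (2 ^ b) ^ n := by
        linarith
      exact le_of_mul_le_mul_right h8 h7
    refine h6.trans ?_
    have h7 : (2 : ℝ) ^ ((b : ℝ) * e) = 2 ^ (b * e) := by
      rw [← Real.rpow_natCast]
      push_cast
      rfl
    rw [h7]
    gcongr
    calc (1 + 2 / (2 : ℝ) ^ b) ^ n ≤ ((2 : ℝ) ^ (2 * (2 / (2 : ℝ) ^ b))) ^ n := by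
          gcongr
          exact one_add_le_two_rpow (by positivity)
      _ = 2 ^ (4 * (n : ℝ) / 2 ^ b) := by
        rw [← Real.rpow_natCast, ← Real.rpow_mul (by norm_num)]
        congr 1
        ring
  have h3 : (2 : ℝ) ^ (K : ℝ) ≤ 2 ^ ((L : ℝ) + s + (r + 1) * (γ * n) + b * e + 4 * n / 2 ^ b) := by
    have h4 : (2 : ℝ) ^ K ≤ L * v ^ (r + 1) * I * 2 ^ s := by exact_mod_cast h1
    rw [Real.rpow_natCast]
    refine h4.trans ?_
    calc (L : ℝ) * v ^ (r + 1) * I * 2 ^ s ≤ 2 ^ (L : ℝ) * 2 ^ ((r + 1) * (γ * n)) *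
          (2 ^ ((b : ℝ) * e) * 2 ^ (4 * (n : ℝ) / 2 ^ b)) * 2 ^ (s : ℝ) := by
          rw [Real.rpow_natCast (2 : ℝ) s]
          gcongr
      _ = _ := by
        rw [← Real.rpow_add (by norm_num), ← Real.rpow_add (by norm_num),
          ← Real.rpow_add (by norm_num), ← Real.rpow_add (by norm_num)]
        congr 1
        ring
  exact (Real.rpow_le_rpow_left_iff (by norm_num)).1 h3

open Classical in
/-- Some value of the quadratic polynomial is taken often. -/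
theorem exists_popular {n K : ℕ} (M : Fin n → (Fin 6 × Fin K → ZMod 2)) :
    ∃ w : (ZMod 2)[X], 2 ^ n ≤ 2 ^ (2 * K) * (univ.filter fun x : Inp n => quad M x = w).card := by
  have hdeg : ∀ x : Inp n, ∀ c : Fin 6, ∀ d, K ≤ d → (frm M x c).coeff d = 0 := by
    intro x c d hd
    unfold frm
    rw [finsetSum_coeff]
    apply sum_eq_zero
    intro i _
    split_ifs
    · rw [finsetSum_coeff]
      apply sum_eq_zero
      intro a _
      rw [coeff_C_mul_X_pow, if_neg]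
      have := a.isLt
      omega
    · exact coeff_zero _
  have hprod : ∀ x : Inp n, ∀ c c' : Fin 6, ∀ d, 2 * K ≤ d →
      (frm M x c * frm M x c').coeff d = 0 := by
    intro x c c' d hd
    rw [coeff_mul]
    apply sum_eq_zero
    intro p hp
    rw [HasAntidiagonal.mem_antidiagonal] at hp
    rcases Nat.lt_or_ge p.1 K with h | h
    · rw [hdeg x c' p.2 (by omega), mul_zero]
    · rw [hdeg x c p.1 h, zero_mul]
  have hq : ∀ x : Inp n, ∀ d, 2 * K ≤ d → (quad M x).coeff d = 0 := by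
    intro x d hd
    unfold quad
    rw [coeff_add, coeff_add, hprod x _ _ d hd, hprod x _ _ d hd, hprod x _ _ d hd]
    simp
  obtain ⟨c, -, hc⟩ := pigeon (univ : Finset (Inp n))
    (fun x => fun a : Fin (2 * K) => (quad M x).coeff a) (univ : Finset (Fin (2 * K) → ZMod 2))
    (fun x _ => mem_univ _) univ_nonempty
  rw [card_univ, card_univ, Fintype.card_fun, Fintype.card_fun] at hc
  simp only [Fintype.card_bool, Fintype.card_fin, ZMod.card] at hc
  have hne : (univ.filter fun x : Inp n =>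
      (fun a : Fin (2 * K) => (quad M x).coeff a) = c).Nonempty := by
    rw [← card_pos]
    by_contra h0
    have h0' : (univ.filter fun x : Inp n =>
      (fun a : Fin (2 * K) => (quad M x).coeff a) = c).card = 0 := by omega
    rw [h0', mul_zero] at hc
    have : 0 < 2 ^ n := by positivity
    omega
  obtain ⟨x₀, hx₀⟩ := hne
  have hx₀ := (mem_filter.1 hx₀).2
  refine ⟨quad M x₀, hc.trans (Nat.mul_le_mul_left _ (card_le_card ?_))⟩
  intro x hx
  have hx := (mem_filter.1 hx).2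
  refine mem_filter.2 ⟨mem_univ _, ?_⟩
  ext d
  rcases Nat.lt_or_ge d (2 * K) with h | h
  · exact (congrFun hx ⟨d, h⟩).trans (congrFun hx₀ ⟨d, h⟩).symm
  · rw [hq x d h, hq x₀ d h]

end Pool.Agent.L0h32.LT
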