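import Pool.Agent.L0h32.LT.Count

/-!
# Popular classes of inputs, and machines from branching programs
-/

set_option autoImplicit false

namespace Pool.Agent.L0h32.LT

open Finset Polynomial

/-! ### Pigeonhole -/

theorem pigeon {α β : Type*} [DecidableEq β] (s : Finset α) (f : α → β) (t : Finset β)
    (hf : ∀ a ∈ s, f a ∈ t) (hs : s.Nonempty) :
    ∃ y ∈ t, s.card ≤ t.card * (s.filter fun a => f a = y).card := by
  by_contra hcon
  push Not at hcon
  obtain ⟨a, ha⟩ := hs
  have ht : t.Nonempty := ⟨f a, hf a ha⟩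
  have h1 : s.card = ∑ y ∈ t, (s.filter fun a => f a = y).card :=
    card_eq_sum_card_fiberwise (fun a ha => mem_coe.2 (hf a (mem_coe.1 ha)))
  have h2 : ∑ y ∈ t, t.card * (s.filter fun a => f a = y).card < ∑ _y ∈ t, s.card :=
    sum_lt_sum_of_nonempty ht hcon
  rw [← mul_sum, ← h1, sum_const, smul_eq_mul] at h2
  exact lt_irrefl _ h2

theorem double {α β : Type*} [Fintype β] [Nonempty β] (s : Finset α) (R : α → β → Prop)
    [∀ a b, Decidable (R a b)]
    (h : ∀ a ∈ s, Fintype.card β ≤ 2 * (univ.filter fun b => R a b).card) :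
    ∃ b, s.card ≤ 2 * (s.filter fun a => R a b).card := by
  by_contra hcon
  push Not at hcon
  have h1 : ∑ b : β, 2 * (s.filter fun a => R a b).card < ∑ _b : β, s.card :=
    sum_lt_sum_of_nonempty univ_nonempty fun b _ => hcon b
  have h2 : ∑ b : β, 2 * (s.filter fun a => R a b).card =
      ∑ a ∈ s, 2 * (univ.filter fun b => R a b).card := by
    rw [← mul_sum, ← mul_sum]
    congr 1
    simp only [card_filter]
    exact sum_comm
  have h3 : ∑ _a ∈ s, Fintype.card β ≤ ∑ a ∈ s, 2 * (univ.filter fun b => R a b).card :=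
    sum_le_sum h
  rw [sum_const, smul_eq_mul] at h1 h3
  rw [card_univ] at h1
  rw [h2] at h1
  rw [mul_comm] at h3
  omega

variable {n : ℕ} {V : Type}

theorem tt_congr {P : Mach n V} {ℓ r : ℕ} {β β' : ℕ → V} {x : Inp n} (h : ∀ s < r, β s = β' s) :
    tt P ℓ β r x = tt P ℓ β' r x := by
  funext i
  unfold tt seg
  apply filter_congr
  intro s _
  rw [h s s.isLt]

theorem gam_pos {J E : ℕ} (hJ : 1 ≤ J) (hE : 1 ≤ E) : ∀ i, 1 ≤ gam J E i := by
  intro i
  induction i with
  | zero => unfold gam; omega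
  | succ i ih =>
    unfold gam
    have : 0 < 2 * J * E * gam J E i * (gam J E i * 2 ^ (J + 2) * E) ^ J := by positivity
    exact this

theorem lab_pos {J E j : ℕ} (hJ : 1 ≤ J) (hE : 1 ≤ E) : 1 ≤ lab J E j := by
  have := gam_pos hJ hE (J - j)
  unfold lab
  have : 0 < gam J E (J - j) * 2 ^ (J + 2) * E := by positivity
  exact this

/-- The popular class of a set of inputs. -/
theorem exists_class (hsel : S_SEL) {k E r ℓ : ℕ} (hk : 1 ≤ k) (hE : 1 ≤ E) (P : Mach n V)
    [Finite V] (v₀ : V) (hn : 64 * gam (2 * k) E (2 * k) * (2 * k * ℓ + 1) ≤ n)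
    (hcov : ∀ x : Inp n, ∀ i, (tt P ℓ (bd P ℓ v₀ x) r x i).Nonempty) (hrl : r * ℓ ≤ k * n)
    (W : Finset (Inp n)) (hW : W.Nonempty) :
    ∃ (j Q Θ : ℕ) (F : Fin r → Fin Q) (h : Fin n → Fin Θ) (β : ℕ → V) (S : Finset (Inp n)),
      S ⊆ W ∧ S.Nonempty ∧ (∀ x ∈ S, ∀ s ≤ r, bd P ℓ v₀ x s = β s) ∧
      (∀ x ∈ S, Good (gam (2 * k) E (2 * k)) E j (tt P ℓ β r x) F h) ∧
      W.card ≤ 4 * k * gam (2 * k) E (2 * k) * Nat.card V ^ (r + 1) * S.card := by
  classical
  have : Fintype V := Fintype.ofFinite V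
  set D := gam (2 * k) E (2 * k) with hD
  have hW' : W.card ≠ 0 := by
    rw [Ne, card_eq_zero]
    exact hW.ne_empty
  -- the multiplicity and the sampling rate
  have h1 : ∀ x : Inp n, ∃ p : ℕ × ℕ, p ∈ Icc 1 (2 * k) ×ˢ Icc 1 D ∧
      lab (2 * k) E p.1 ^ r * p.2 ^ n ≤ 2 * (univ.filter fun Fh :
        (Fin r → Fin (lab (2 * k) E p.1)) × (Fin n → Fin p.2) =>
          Good D E p.1 (tt P ℓ (bd P ℓ v₀ x) r x) Fh.1 Fh.2).card := by
    intro x
    have hsum : ∑ i, (tt P ℓ (bd P ℓ v₀ x) r x i).card =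
        ∑ s : Fin r, (seg P ℓ (bd P ℓ v₀ x) x s).card := by
      unfold tt
      simp only [card_filter]
      rw [sum_comm]
      apply sum_congr rfl
      intro s _
      rw [← card_filter, filter_mem_eq_inter, univ_inter]
    obtain ⟨j, Θ, h2, h3, h4, h5, h6⟩ := hsel k E n r ℓ hk hE hn (tt P ℓ (bd P ℓ v₀ x) r x)
      (hcov x) (by
        rw [hsum]
        refine (sum_le_card_nsmul _ _ ℓ fun s _ => card_rd_le _ _ _ _ _).trans ?_
        rw [card_univ, Fintype.card_fin, smul_eq_mul]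
        exact hrl) (by
        intro s
        have : (univ.filter fun i => s ∈ tt P ℓ (bd P ℓ v₀ x) r x i) =
            seg P ℓ (bd P ℓ v₀ x) x s := by
          ext i
          simp [tt]
        rw [this]
        exact card_rd_le _ _ _ _ _)
    refine ⟨(j, Θ), mem_product.2 ⟨mem_Icc.2 ⟨h2, h3⟩, mem_Icc.2 ⟨h4, h5⟩⟩, ?_⟩
    convert h6
  choose p hp hp' using h1
  obtain ⟨⟨j, Θ⟩, hy, hc1⟩ := pigeon W p (Icc 1 (2 * k) ×ˢ Icc 1 D) (fun x _ => hp x) hW
  obtain ⟨hj, hΘ⟩ := mem_product.1 hy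
  have hj := mem_Icc.1 hj
  have hΘ := mem_Icc.1 hΘ
  set W₁ := W.filter fun x => p x = (j, Θ) with hW₁
  -- the labels
  have : NeZero (lab (2 * k) E j) := ⟨by have := lab_pos (j := j) (show 1 ≤ 2 * k by omega) hE; omega⟩
  have : NeZero Θ := ⟨by have := hΘ.1; dsimp only at this; omega⟩
  obtain ⟨⟨F, h⟩, hc2⟩ := double (β := (Fin r → Fin (lab (2 * k) E j)) × (Fin n → Fin Θ)) W₁
    (fun x Fh => Good D E j (tt P ℓ (bd P ℓ v₀ x) r x) Fh.1 Fh.2) (by
      intro x hx
      have hx' := (mem_filter.1 hx).2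
      have := hp' x
      rw [hx'] at this
      rw [Fintype.card_prod, Fintype.card_fun, Fintype.card_fun]
      simp only [Fintype.card_fin]
      convert this)
  set W₂ := W₁.filter fun x => Good D E j (tt P ℓ (bd P ℓ v₀ x) r x) F h with hW₂
  have hne : W₂.Nonempty := by
    rw [← card_pos]
    by_contra h0
    have h0' : W₂.card = 0 := by omega
    rw [h0'] at hc2
    have : W₁.card = 0 := by omega
    rw [this] at hc1
    omega
  -- the boundary states
  obtain ⟨b, -, hc3⟩ := pigeon W₂ (fun x => fun s : Fin (r + 1) => bd P ℓ v₀ x s) univ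
    (fun x _ => mem_univ _) hne
  set S := W₂.filter fun x => (fun s : Fin (r + 1) => bd P ℓ v₀ x s) = b with hS
  have hβ : ∀ x ∈ S, ∀ s ≤ r, bd P ℓ v₀ x s = if hs : s ≤ r then b ⟨s, by omega⟩ else v₀ := by
    intro x hx s hs
    rw [dif_pos hs]
    have := congrFun (mem_filter.1 hx).2 ⟨s, by omega⟩
    exact this
  refine ⟨j, lab (2 * k) E j, Θ, F, h, fun s => if hs : s ≤ r then b ⟨s, by omega⟩ else v₀, S,
    fun x hx => ?_, ?_, hβ, ?_, ?_⟩
  · exact (mem_filter.1 (mem_filter.1 (mem_filter.1 hx).1).1).1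
  · rw [← card_pos]
    by_contra h0
    have h0' : S.card = 0 := by omega
    rw [h0', mul_zero] at hc3
    have := card_pos.2 hne
    omega
  · intro x hx
    have h2 := (mem_filter.1 (mem_filter.1 hx).1).2
    rw [tt_congr (β' := fun s => if hs : s ≤ r then b ⟨s, by omega⟩ else v₀)
      fun s hs => hβ x hx s hs.le] at h2
    exact h2
  · rw [card_product, Nat.card_Icc, Nat.card_Icc] at hc1
    rw [card_univ, Fintype.card_fun, Fintype.card_fin] at hc3
    rw [Nat.card_eq_fintype_card]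
    have e1 : (2 * k + 1 - 1) = 2 * k := by omega
    have e2 : D + 1 - 1 = D := by omega
    rw [e1, e2] at hc1
    calc W.card ≤ 2 * k * D * W₁.card := hc1
      _ ≤ 2 * k * D * (2 * W₂.card) := Nat.mul_le_mul_left _ hc2
      _ ≤ 2 * k * D * (2 * (Fintype.card V ^ (r + 1) * S.card)) :=
        Nat.mul_le_mul_left _ (Nat.mul_le_mul_left _ hc3)
      _ = 4 * k * D * Fintype.card V ^ (r + 1) * S.card := by ring

/-! ### Branching programs as machines -/

section
variable (hn : 0 < n) (var : V → Fin n) (next : V → Bool → V) (out : V → Option Bool) (T : ℕ)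

/-- After the time `T` the machine reads all variables without changing its state. -/
def pad : Mach n V where
  q τ v := if τ < T then var v else ⟨(τ - T) % n, Nat.mod_lt _ hn⟩
  δ τ v b := if τ < T then (if (out v).isSome then v else next v b) else v

theorem run_pad (x : Inp n) (v : V) : ∀ t ≤ T, (pad hn var next out T).run x 0 v t =
    (fun v => if (out v).isSome then v else next v (x (var v)))^[t] v := by
  intro t
  induction t with
  | zero => intro _; rfl
  | succ t ih =>
    intro ht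
    rw [Function.iterate_succ_apply', ← ih (by omega)]
    show (pad hn var next out T).δ (0 + t) _ _ = _
    unfold pad
    dsimp only
    rw [Nat.zero_add, if_pos (by omega : t < T)]
    rw [if_pos (by omega : t < T)]

theorem run_pad_late (x : Inp n) (v : V) (t : ℕ) : (pad hn var next out T).run x 0 v (T + t) =
    (fun v => if (out v).isSome then v else next v (x (var v)))^[T] v := by
  induction t with
  | zero => exact run_pad hn var next out T x v T le_rfl
  | succ t ih =>
    rw [← ih]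
    show (pad hn var next out T).δ (0 + (T + t)) _ _ = _
    unfold pad
    dsimp only
    rw [if_neg (by omega)]
    rfl

theorem cov_pad {ℓ r : ℕ} (hl : 1 ≤ ℓ) (hrl : T + n ≤ r * ℓ) (β : ℕ → V) (x : Inp n)
    (i : Fin n) : (tt (pad hn var next out T) ℓ β r x i).Nonempty := by
  have h1 : (T + i) / ℓ < r := by
    rw [Nat.div_lt_iff_lt_mul (by omega)]
    have := i.isLt
    omega
  refine ⟨⟨(T + i) / ℓ, h1⟩, mem_filter.2 ⟨mem_univ _, ?_⟩⟩
  unfold seg Mach.rd
  refine mem_image.2 ⟨(T + i) % ℓ, mem_range.2 (Nat.mod_lt _ (by omega)), ?_⟩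
  have h2 : (T + (i : ℕ)) / ℓ * ℓ + (T + i) % ℓ = T + i := by
    rw [mul_comm]
    exact Nat.div_add_mod _ _
  show (pad hn var next out T).q ((T + (i : ℕ)) / ℓ * ℓ + (T + i) % ℓ) _ = i
  rw [h2]
  unfold pad
  dsimp only
  rw [if_neg (by omega)]
  apply Fin.ext
  show (T + (i : ℕ) - T) % n = i
  rw [Nat.add_sub_cancel_left]
  exact Nat.mod_eq_of_lt i.isLt

end

end Pool.Agent.L0h32.LT
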