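import Mathlib

/-!
# Linear length branching programs against one-pass randomized programs: statements of the parts
-/

set_option autoImplicit false

namespace Pool.Agent.L0h32.LT

open Finset Polynomial

/-- Inputs. -/
abbrev Inp (n : ℕ) : Type := Fin n → Bool

/-! ### Selection -/

/-- Thresholds: `gam J E i` belongs to the multiplicity `J - i`. -/
def gam (J E : ℕ) : ℕ → ℕ
  | 0 => 2 * J
  | i + 1 => 2 * J * E * gam J E i * (gam J E i * 2 ^ (J + 2) * E) ^ J

/-- The number of labels for the multiplicity `j`. -/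
def lab (J E j : ℕ) : ℕ := gam J E (J - j) * 2 ^ (J + 2) * E

/-- The labels `F` of the segments and `h` of the variables are good for the reading pattern `t`:
`t i` is the set of the segments in which the variable `i` is read. -/
def Good {n r Q Θ : ℕ} (D E j : ℕ) (t : Fin n → Finset (Fin r)) (F : Fin r → Fin Q)
    (h : Fin n → Fin Θ) : Prop :=
  n ≤ 2 * D * (univ.filter fun i => (h i : ℕ) = 0 ∧ ∀ s ∈ t i, (F s : ℕ) = 0).card ∧
  n ≤ 2 * D * (univ.filter fun i => (h i : ℕ) = 0 ∧ ∀ s ∈ t i, (F s : ℕ) = 1).card ∧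
  E * D * (univ.filter fun i => (h i : ℕ) = 0 ∧ (t i).card ≠ j ∧
    ∀ s ∈ t i, (F s : ℕ) = 0 ∨ (F s : ℕ) = 1).card ≤ 16 * n

open Classical in
/-- **Selection.** For every reading pattern with at most `k n` readings there are a multiplicity `j`
and a sampling rate `1 / Θ` for which at least half of the labellings are good. -/
def S_SEL : Prop :=
  ∀ (k E n r ℓ : ℕ), 1 ≤ k → 1 ≤ E →
    64 * gam (2 * k) E (2 * k) * (2 * k * ℓ + 1) ≤ n →
    ∀ t : Fin n → Finset (Fin r), (∀ i, (t i).Nonempty) → (∑ i, (t i).card ≤ k * n) →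
      (∀ s, (univ.filter fun i => s ∈ t i).card ≤ ℓ) →
      ∃ j Θ : ℕ, 1 ≤ j ∧ j ≤ 2 * k ∧ 1 ≤ Θ ∧ Θ ≤ gam (2 * k) E (2 * k) ∧
        lab (2 * k) E j ^ r * Θ ^ n ≤ 2 * (univ.filter fun Fh : (Fin r → Fin (lab (2 * k) E j)) ×
          (Fin n → Fin Θ) => Good (gam (2 * k) E (2 * k)) E j t Fh.1 Fh.2).card

/-! ### Vectors in general position -/

/-- **General position.** There are `n` vectors such that the span of any `m` of them has
codimension at most `s`. -/
def S_RNK : Prop :=
  ∀ (n m s : ℕ) (ι : Type) (_ : Fintype ι), n + Fintype.card ι * (s + 1) < (s + 1) * m →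
    ∃ M : Fin n → (ι → ZMod 2), ∀ A : Finset (Fin n), m ≤ A.card →
      Fintype.card ι ≤ Module.finrank (ZMod 2) (Submodule.span (ZMod 2) (M '' A)) + s

/-! ### The function -/

/-- The linear forms. The first index is the number of the form, the second one that of a coefficient
of a polynomial. -/
noncomputable def frm {n K : ℕ} (M : Fin n → (Fin 6 × Fin K → ZMod 2)) (x : Inp n) (c : Fin 6) : (ZMod 2)[X] :=
  ∑ i, if x i then ∑ a : Fin K, C (M i (c, a)) * X ^ (a : ℕ) else 0

/-- The quadratic polynomial. -/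
noncomputable def quad {n K : ℕ} (M : Fin n → (Fin 6 × Fin K → ZMod 2)) (x : Inp n) : (ZMod 2)[X] :=
  frm M x 0 * frm M x 3 + frm M x 1 * frm M x 4 + frm M x 2 * frm M x 5

/-- The restriction of an input to a set of variables. -/
def rst {n : ℕ} (A : Finset (Fin n)) (x : Inp n) : Inp n := fun i => if i ∈ A then x i else false

/-- The input `x` with the values of `y` on `B`. -/
def mix {n : ℕ} (B : Finset (Fin n)) (x y : Inp n) : Inp n := fun i => if i ∈ B then y i else x i

/-- **Rectangles are thin.** -/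
def S_REC : Prop :=
  ∀ (n m K s : ℕ) (M : Fin n → (Fin 6 × Fin K → ZMod 2)),
    (∀ A : Finset (Fin n), m ≤ A.card →
      6 * K ≤ Module.finrank (ZMod 2) (Submodule.span (ZMod 2) (M '' A)) + s) →
    ∀ (w : (ZMod 2)[X]) (A B : Finset (Fin n)), Disjoint A B → m ≤ A.card → m ≤ B.card →
      ∀ S : Finset (Inp n), (∀ x ∈ S, ∀ y ∈ S, ∀ i, i ∉ A → i ∉ B → x i = y i) →
        (∀ x ∈ S, ∀ y ∈ S, quad M (mix B x y) = w) →
        (S.image (rst A)).card * 2 ^ (3 * K) ≤ 2 ^ (A.card + s) ∨
          (S.image (rst B)).card * 2 ^ (3 * K) ≤ 2 ^ (B.card + s)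

/-! ### One-pass programs -/

/-- A program that reads the input once, from left to right; `V` is the set of its memory states. -/
structure OnePass (n : ℕ) (V : Type) where
  start : V
  next : Fin n → V → Bool → V
  acc : V → Prop

/-- The program accepts the input. -/
def OnePass.Accepts {n : ℕ} {V : Type} (P : OnePass n V) (x : Inp n) : Prop :=
  P.acc ((List.finRange n).foldl (fun v i => P.next i v (x i)) P.start)

open Classical in
/-- **Fingerprints.** With `ρ` coins and `2 ^ (6 ρ)` memory states one can test whether the value of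
the quadratic polynomial is `w`. -/
def S_ONE : Prop :=
  ∀ (n K ρ : ℕ) (M : Fin n → (Fin 6 × Fin K → ZMod 2)) (w : (ZMod 2)[X]), 1 ≤ ρ → 4 * K ≤ 2 ^ ρ →
    (∃ x, quad M x = w) →
    ∃ (V : Type) (_ : Finite V) (P : (Fin ρ → Bool) → OnePass n V), Nat.card V ≤ 2 ^ (6 * ρ) ∧
      ∀ x, (quad M x ≠ w → 2 ^ ρ ≤ 2 * (univ.filter fun ω => (P ω).Accepts x).card) ∧
        (quad M x = w → ∀ ω, ¬ (P ω).Accepts x)

/-! ### Parameters -/

/-- The thresholds are polynomials in `E`. -/
def S_PAR : Prop :=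
  ∀ J c : ℕ, 1 ≤ J → ∃ E : ℕ, 1 ≤ E ∧ c * (Nat.log 2 (gam J E J) + 1) ≤ E

/-- The number of small sets with a marked subset. -/
def S_CNT : Prop :=
  ∀ (n e b : ℕ), (univ.filter fun P : Finset (Fin n) × Finset (Fin n) =>
      P.2 ⊆ P.1 ∧ P.1.card ≤ e).card * 2 ^ (b * n) ≤ 2 ^ (b * e) * (2 ^ b + 2) ^ n

end Pool.Agent.L0h32.LT
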